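import Mathlib
import Pool.Agent.V11181.GF.Density

/-!
MP_71ec98 (Q1): there are finite grammar forms `F`, `G` such that the pair of their families is
dense. In fact `F_1` (`S → ab, S → ba`) and `F_2` (`S → aa`) work.
-/

open Finset
open Pool.Agent.V11181.GF (Hom density)

namespace Pool.Agent.Results.MP_71ec98_lc.DensePair

/-- a context-free grammar over the fixed countable supply `ℕ` of symbols -/
structure Grammar where
  /-- total alphabet -/
  V : Finset ℕ
  /-- terminals -/
  T : Finset ℕ
  /-- productions -/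
  P : Set (ℕ × List ℕ)
  /-- start symbol -/
  S : ℕ
  T_sub : T ⊆ V
  P_fin : P.Finite
  S_mem : S ∈ V ∧ S ∉ T
  P_left : ∀ q ∈ P, q.1 ∈ V ∧ q.1 ∉ T
  P_right : ∀ q ∈ P, ∀ x ∈ q.2, x ∈ V

/-- one derivation step -/
def Step (G : Grammar) (u v : List ℕ) : Prop :=
  ∃ l r A x, (A, x) ∈ G.P ∧ u = l ++ A :: r ∧ v = l ++ x ++ r

/-- derivations -/
def Derives (G : Grammar) : List ℕ → List ℕ → Prop := Relation.ReflTransGen (Step G)

/-- the language, modulo the empty word -/
def Lang (G : Grammar) : Set (List ℕ) :=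
  {w | w ≠ [] ∧ (∀ x ∈ w, x ∈ G.T) ∧ Derives G [G.S] w}

/-- dfl-substitutions on `V` -/
def IsDfl (V : Finset ℕ) (μ : ℕ → Finset ℕ) : Prop :=
  ∀ a ∈ V, ∀ b ∈ V, a ≠ b → Disjoint (μ a) (μ b)

/-- `G'` is an interpretation of `G` modulo `μ` -/
def Interpretation (G' G : Grammar) (μ : ℕ → Finset ℕ) : Prop :=
  (∀ A ∈ G.V, A ∉ G.T → ∀ B ∈ μ A, B ∈ G'.V ∧ B ∉ G'.T) ∧
  (∀ a ∈ G.T, μ a ⊆ G'.T) ∧
  (∀ q ∈ G'.P, ∃ p ∈ G.P, q.1 ∈ μ p.1 ∧ List.Forall₂ (fun y x => y ∈ μ x) q.2 p.2) ∧
  G'.S ∈ μ G.S

/-- the family of a grammar form -/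
def Fam (G : Grammar) : Set (Set (List ℕ)) :=
  {L | ∃ G' μ, IsDfl G.V μ ∧ Interpretation G' G μ ∧ L = Lang G'}

/-- finite forms -/
def FiniteForm (G : Grammar) : Prop := (Lang G).Finite

/-- the pair of families of `F` and `G` is dense -/
def Dense (F G : Grammar) : Prop :=
  ∀ G₁ G₂ : Grammar, Fam F ⊆ Fam G₁ → Fam G₁ ⊂ Fam G₂ → Fam G₂ ⊆ Fam G →
    ∃ G₃ : Grammar, Fam G₁ ⊂ Fam G₃ ∧ Fam G₃ ⊂ Fam G₂

theorem map_eq {μ : ℕ → Finset ℕ} {h : ℕ → ℕ} {V : Finset ℕ}
    (hh : ∀ x ∈ V, ∀ y ∈ μ x, h y = x) {y x : List ℕ}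
    (hf : List.Forall₂ (fun y x => y ∈ μ x) y x) (hx : ∀ a ∈ x, a ∈ V) :
    y.map h = x ∧ ∀ b ∈ y, ∃ a ∈ V, b ∈ μ a := by
  induction hf with
  | nil => simp
  | @cons b a l m hab hlm ih =>
    obtain ⟨ih1, ih2⟩ := ih (fun c hc => hx c (List.mem_cons_of_mem _ hc))
    refine ⟨?_, ?_⟩
    · rw [List.map_cons, ih1, hh a (hx a (List.mem_cons_self)) b hab]
    · intro c hc
      rcases List.mem_cons.mp hc with rfl | hc
      · exact ⟨a, hx a (List.mem_cons_self), hab⟩
      · exact ih2 c hc

theorem exists_of_forall2 {μ : ℕ → Finset ℕ} {y x : List ℕ}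
    (hf : List.Forall₂ (fun y x => y ∈ μ x) y x) : ∀ z ∈ y, ∃ a ∈ x, z ∈ μ a := by
  induction hf with
  | nil => simp
  | @cons b a l m hab _ ih =>
    intro z hz
    rcases List.mem_cons.mp hz with rfl | hz
    · exact ⟨a, List.mem_cons_self, hab⟩
    · obtain ⟨x, hx, hzx⟩ := ih z hz
      exact ⟨x, List.mem_cons_of_mem _ hx, hzx⟩

theorem fin_forall2 (μ : ℕ → Finset ℕ) (x : List ℕ) :
    {y : List ℕ | List.Forall₂ (fun y x => y ∈ μ x) y x}.Finite := by
  induction x with
  | nil =>
    apply Set.Finite.subset (Set.finite_singleton ([] : List ℕ))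
    intro y hy
    have : List.Forall₂ (fun y x => y ∈ μ x) y [] := hy
    rw [List.forall₂_nil_right_iff] at this
    exact this
  | cons a x ih =>
    apply Set.Finite.subset (((μ a).finite_toSet.prod ih).image (fun q => q.1 :: q.2))
    intro y hy
    have : List.Forall₂ (fun y x => y ∈ μ x) y (a :: x) := hy
    rw [List.forall₂_cons_right_iff] at this
    obtain ⟨b, l, hb, hl, rfl⟩ := this
    exact ⟨(b, l), ⟨hb, hl⟩, rfl⟩

theorem fin_two (T : Finset ℕ) : {w : List ℕ | w.length = 2 ∧ ∀ x ∈ w, x ∈ T}.Finite := by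
  apply Set.Finite.subset (((T ×ˢ T).finite_toSet).image (fun q : ℕ × ℕ => [q.1, q.2]))
  rintro w ⟨h1, h2⟩
  obtain ⟨a, b, rfl⟩ := List.length_eq_two.mp h1
  exact ⟨(a, b), by simp [h2 a (by simp), h2 b (by simp)], rfl⟩

/-- interpretations only produce homomorphic languages -/
theorem fam_sub (G : Grammar) (hG : ∀ w ∈ Lang G, w.length = 2) (L : Set (List ℕ))
    (hL : L ∈ Fam G) :
    L.Finite ∧ (∀ w ∈ L, w.length = 2) ∧ ∃ h : ℕ → ℕ, ∀ w ∈ L, w.map h ∈ Lang G := by
  classical
  obtain ⟨G', μ, hμ, ⟨i1, i2, i3, i4⟩, rfl⟩ := hL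
  let h : ℕ → ℕ := fun y => if hy : ∃ x ∈ G.V, y ∈ μ x then hy.choose else 0
  have hh : ∀ x ∈ G.V, ∀ y ∈ μ x, h y = x := by
    intro x hx y hy
    have hex : ∃ x ∈ G.V, y ∈ μ x := ⟨x, hx, hy⟩
    have h1 : h y = hex.choose := dif_pos hex
    rw [h1]
    by_contra hne
    have h2 := hμ _ hex.choose_spec.1 x hx hne
    exact Finset.disjoint_left.mp h2 hex.choose_spec.2 hy
  have key : ∀ α, Derives G' [G'.S] α →
      Derives G [G.S] (α.map h) ∧ ∀ y ∈ α, ∃ x ∈ G.V, y ∈ μ x := by
    intro α hα
    induction hα with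
    | refl =>
      refine ⟨?_, ?_⟩
      · rw [List.map_cons, List.map_nil, hh G.S G.S_mem.1 _ i4]
        exact Relation.ReflTransGen.refl
      · intro y hy
        rw [List.mem_singleton] at hy
        rw [hy]
        exact ⟨G.S, G.S_mem.1, i4⟩
    | tail _ hst ih =>
      obtain ⟨ih1, ih2⟩ := ih
      obtain ⟨l, r, B, y, hP, rfl, rfl⟩ := hst
      obtain ⟨⟨A, x⟩, hp, hBA, hyx⟩ := i3 _ hP
      simp only at hBA hyx
      have hm := map_eq hh hyx (G.P_right _ hp)
      have hB : h B = A := hh A (G.P_left _ hp).1 B hBA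
      refine ⟨?_, ?_⟩
      · apply ih1.tail
        refine ⟨l.map h, r.map h, A, x, hp, ?_, ?_⟩
        · rw [List.map_append, List.map_cons, hB]
        · rw [List.map_append, List.map_append, hm.1]
      · intro z hz
        rw [List.mem_append, List.mem_append] at hz
        rcases hz with (hz | hz) | hz
        · exact ih2 z (List.mem_append_left _ hz)
        · exact hm.2 z hz
        · exact ih2 z (List.mem_append_right _ (List.mem_cons_of_mem _ hz))
  have hmap : ∀ w ∈ Lang G', w.map h ∈ Lang G := by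
    rintro w ⟨hw1, hw2, hw3⟩
    obtain ⟨k1, k2⟩ := key w hw3
    refine ⟨by simpa using hw1, ?_, k1⟩
    intro z hz
    obtain ⟨y, hy, rfl⟩ := List.mem_map.mp hz
    obtain ⟨x, hx, hyx⟩ := k2 y hy
    rw [hh x hx y hyx]
    by_contra hxT
    exact (i1 x hx hxT y hyx).2 (hw2 y hy)
  have hlen : ∀ w ∈ Lang G', w.length = 2 := by
    intro w hw
    have := hG _ (hmap w hw)
    rwa [List.length_map] at this
  refine ⟨?_, hlen, h, hmap⟩
  apply Set.Finite.subset (fin_two G'.T)
  intro w hw
  exact ⟨hlen w hw, hw.2.1⟩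

/-- every homomorphic finite language of words of length two is produced -/
theorem sub_fam (G : Grammar) (L : Set (List ℕ)) (hfin : L.Finite)
    (hlen : ∀ w ∈ L, w.length = 2) (h : ℕ → ℕ) (hh : ∀ w ∈ L, w.map h ∈ Lang G) :
    L ∈ Fam G := by
  classical
  let K : Finset ℕ := hfin.toFinset.biUnion List.toFinset
  have hK : ∀ w ∈ L, ∀ x ∈ w, x ∈ K := by
    intro w hw x hx
    rw [mem_biUnion]
    exact ⟨w, hfin.mem_toFinset.mpr hw, List.mem_toFinset.mpr hx⟩
  have hKT : ∀ x ∈ K, h x ∈ G.T := by
    intro x hx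
    rw [mem_biUnion] at hx
    obtain ⟨w, hw, hxw⟩ := hx
    exact (hh w (hfin.mem_toFinset.mp hw)).2.1 _
      (List.mem_map.mpr ⟨x, List.mem_toFinset.mp hxw, rfl⟩)
  let U : Finset (List ℕ) := hfin.toFinset.biUnion (fun w => w.sublists.toFinset)
  have hU : ∀ w ∈ L, ∀ u, u.Sublist w → u ∈ U := by
    intro w hw u hu
    rw [mem_biUnion]
    exact ⟨w, hfin.mem_toFinset.mpr hw, List.mem_toFinset.mpr (List.mem_sublists.mpr hu)⟩
  let M : ℕ := K.sup id + 1
  have hM : ∀ x ∈ K, x < M := fun x hx => by
    have : x ≤ K.sup id := Finset.le_sup (f := id) hx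
    omega
  let code : Option (ℕ × List ℕ) → ℕ := fun o => M + Encodable.encode o
  have hcode : Function.Injective code := fun a b hab =>
    Encodable.encode_injective (Nat.add_left_cancel hab)
  have hcodeM : ∀ o, M ≤ code o := fun o => Nat.le_add_right _ _
  let yld : ℕ → List ℕ := fun z => if z < M then [z] else
    match (Encodable.decode (z - M) : Option (Option (ℕ × List ℕ))) with
    | some (some (_, u)) => u
    | _ => []
  have hy1 : ∀ z, z < M → yld z = [z] := fun z hz => if_pos hz
  have hy2 : ∀ A u, yld (code (some (A, u))) = u := by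
    intro A u
    have h1 : ¬ code (some (A, u)) < M := not_lt.mpr (hcodeM _)
    simp only [yld]
    rw [if_neg h1]
    have h2 : code (some (A, u)) - M = Encodable.encode (some (A, u)) := by
      simp only [code]
      omega
    rw [h2, Encodable.encodek]
  let Y : List ℕ → List ℕ := fun α => α.flatMap yld
  have hYapp : ∀ l r, Y (l ++ r) = Y l ++ Y r := fun l r => List.flatMap_append
  have hYcons : ∀ a l, Y (a :: l) = yld a ++ Y l := fun a l => List.flatMap_cons
  have hYlow : ∀ l : List ℕ, (∀ x ∈ l, x < M) → Y l = l := by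
    intro l
    induction l with
    | nil => intro _; rfl
    | cons a l ih =>
      intro hl
      rw [hYcons, hy1 a (hl a List.mem_cons_self),
        ih (fun x hx => hl x (List.mem_cons_of_mem _ hx))]
      rfl
  let μ : ℕ → Finset ℕ := fun x => if x ∈ G.T then K.filter (fun y => h y = x) else
    if x ∈ G.V then U.image (fun u => code (some (x, u))) ∪ (if x = G.S then {code none} else ∅)
    else ∅
  have hμT : ∀ x ∈ G.T, μ x = K.filter (fun y => h y = x) := fun x hx => if_pos hx
  have hμV : ∀ x ∈ G.V, x ∉ G.T → μ x = U.image (fun u => code (some (x, u))) ∪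
      (if x = G.S then {code none} else ∅) := by
    intro x hx hxT
    simp only [μ]
    rw [if_neg hxT, if_pos hx]
  have hmemV : ∀ x ∈ G.V, x ∉ G.T → ∀ y ∈ μ x, M ≤ y ∧
      ((∃ u, y = code (some (x, u))) ∨ (x = G.S ∧ y = code none)) := by
    intro x hx hxT y hy
    rw [hμV x hx hxT, mem_union, mem_image] at hy
    rcases hy with ⟨u, _, rfl⟩ | hy
    · exact ⟨hcodeM _, Or.inl ⟨u, rfl⟩⟩
    · by_cases hxS : x = G.S
      · rw [if_pos hxS, mem_singleton] at hy
        rw [hy]
        exact ⟨hcodeM _, Or.inr ⟨hxS, rfl⟩⟩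
      · rw [if_neg hxS] at hy
        exact absurd hy (notMem_empty _)
  have hS0 : code none ∈ μ G.S := by
    rw [hμV G.S G.S_mem.1 G.S_mem.2, mem_union]
    right
    rw [if_pos rfl]
    exact mem_singleton_self _
  have hcodeU : ∀ x ∈ G.V, x ∉ G.T → ∀ u ∈ U, code (some (x, u)) ∈ μ x := by
    intro x hx hxT u hu
    rw [hμV x hx hxT, mem_union]
    left
    exact mem_image_of_mem _ hu
  have hdfl : IsDfl G.V μ := by
    intro a ha b hb hab
    rw [Finset.disjoint_left]
    intro y hya hyb
    by_cases haT : a ∈ G.T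
    · rw [hμT a haT, mem_filter] at hya
      by_cases hbT : b ∈ G.T
      · rw [hμT b hbT, mem_filter] at hyb
        exact hab (hya.2.symm.trans hyb.2)
      · have h1 := hM y hya.1
        have h2 := (hmemV b hb hbT y hyb).1
        omega
    · have h2 := hmemV a ha haT y hya
      by_cases hbT : b ∈ G.T
      · rw [hμT b hbT, mem_filter] at hyb
        have h1 := hM y hyb.1
        omega
      · have h3 := hmemV b hb hbT y hyb
        rcases h2.2 with ⟨u, hu⟩ | ⟨hu, hu'⟩
        · rcases h3.2 with ⟨u', hu2⟩ | ⟨hu2, hu2'⟩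
          · have h4 := hcode (hu.symm.trans hu2)
            simp only [Option.some.injEq, Prod.mk.injEq] at h4
            exact hab h4.1
          · have h4 := hcode (hu.symm.trans hu2')
            cases h4
        · rcases h3.2 with ⟨u', hu2⟩ | ⟨hu2, hu2'⟩
          · have h4 := hcode (hu'.symm.trans hu2)
            cases h4
          · exact hab (hu.trans hu2.symm)
  let P' : Set (ℕ × List ℕ) := {q | (∃ p ∈ G.P, q.1 ∈ μ p.1 ∧
      List.Forall₂ (fun y x => y ∈ μ x) q.2 p.2) ∧ (∀ z ∈ q.2, z ≠ code none) ∧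
      ((q.1 = code none ∧ Y q.2 ∈ L) ∨ (q.1 ≠ code none ∧ Y q.2 = yld q.1))}
  let G' : Grammar :=
    { V := K ∪ G.V.biUnion μ
      T := K
      P := P'
      S := code none
      T_sub := subset_union_left
      P_fin := by
        apply Set.Finite.subset (Set.Finite.biUnion G.P_fin
          (fun p _ => (μ p.1).finite_toSet.prod (fin_forall2 μ p.2)))
        rintro ⟨B, y⟩ ⟨⟨p, hp, h1, h2⟩, _⟩
        rw [Set.mem_iUnion₂]
        exact ⟨p, hp, h1, h2⟩
      S_mem := by
        refine ⟨mem_union_right _ (mem_biUnion.mpr ⟨G.S, G.S_mem.1, hS0⟩), ?_⟩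
        intro h1
        have h2 := hM _ h1
        have h3 := hcodeM none
        omega
      P_left := by
        rintro ⟨B, y⟩ ⟨⟨p, hp, h1, _⟩, _⟩
        have h2 := G.P_left p hp
        refine ⟨mem_union_right _ (mem_biUnion.mpr ⟨p.1, h2.1, h1⟩), ?_⟩
        intro h3
        have h4 := hM _ h3
        have h5 := (hmemV p.1 h2.1 h2.2 B h1).1
        simp only at h4
        omega
      P_right := by
        rintro ⟨B, y⟩ ⟨⟨p, hp, _, h1⟩, _⟩ z hz
        obtain ⟨x, hx, hzx⟩ := exists_of_forall2 h1 z hz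
        exact mem_union_right _ (mem_biUnion.mpr ⟨x, G.P_right p hp x hx, hzx⟩) }
  have hint : Interpretation G' G μ := by
    refine ⟨?_, ?_, ?_, hS0⟩
    · intro A hA hAT B hB
      refine ⟨mem_union_right _ (mem_biUnion.mpr ⟨A, hA, hB⟩), ?_⟩
      intro h1
      have h2 := hM _ h1
      have h3 := (hmemV A hA hAT B hB).1
      omega
    · intro a ha
      rw [hμT a ha]
      exact filter_subset _ _
    · rintro q ⟨⟨p, hp, h1, h2⟩, _⟩
      exact ⟨p, hp, h1, h2⟩
  refine ⟨G', μ, hdfl, hint, ?_⟩
  apply Set.Subset.antisymm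
  · -- every word of `L` is derived
    intro w hw
    have hwK : ∀ x ∈ w, x ∈ K := hK w hw
    have hYw : Y w = w := hYlow w (fun x hx => hM x (hwK x hx))
    have lift : ∀ α, Derives G α (w.map h) → ∃ α', List.Forall₂ (fun y x => y ∈ μ x) α' α ∧
        (∀ z ∈ α', z ≠ code none) ∧ Y α' = w ∧ Derives G' α' w := by
      intro α hα
      induction hα using Relation.ReflTransGen.head_induction_on with
      | refl =>
        refine ⟨w, ?_, ?_, hYw, Relation.ReflTransGen.refl⟩
        · rw [List.forall₂_map_right_iff]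
          rw [List.forall₂_same]
          intro x hx
          rw [hμT _ (hKT x (hwK x hx)), mem_filter]
          exact ⟨hwK x hx, rfl⟩
        · intro z hz h1
          have h2 := hM z (hwK z hz)
          have h3 := hcodeM none
          omega
      | head hst _ ih =>
        obtain ⟨β', hβ1, hβ2, hβ3, hβ4⟩ := ih
        obtain ⟨l, r, A, x, hp, rfl, rfl⟩ := hst
        -- split β'
        obtain ⟨l', x', r', rfl, hl, hx, hr⟩ : ∃ l' x' r', β' = l' ++ x' ++ r' ∧
            List.Forall₂ (fun y x => y ∈ μ x) l' l ∧ List.Forall₂ (fun y x => y ∈ μ x) x' x ∧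
            List.Forall₂ (fun y x => y ∈ μ x) r' r := by
          refine ⟨(β'.take (l ++ x).length).take l.length,
            (β'.take (l ++ x).length).drop l.length, β'.drop (l ++ x).length, ?_, ?_, ?_, ?_⟩
          · rw [List.take_append_drop, List.take_append_drop]
          · exact List.forall₂_take_append _ _ _ (List.forall₂_take_append _ _ _ hβ1)
          · exact List.forall₂_drop_append _ _ _ (List.forall₂_take_append _ _ _ hβ1)
          · exact List.forall₂_drop_append _ _ _ hβ1
        have hA := G.P_left _ hp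
        simp only at hA
        have hu : Y x' ∈ U := by
          apply hU w hw
          rw [← hβ3, hYapp, hYapp]
          exact (List.sublist_append_right _ _).trans (List.sublist_append_left _ _)
        have hc := hcodeU A hA.1 hA.2 (Y x') hu
        have hcn : code (some (A, Y x')) ≠ code none := fun h1 => by
          have h2 := hcode h1
          cases h2
        refine ⟨l' ++ code (some (A, Y x')) :: r', ?_, ?_, ?_, ?_⟩
        · exact List.rel_append hl (List.Forall₂.cons hc hr)
        · intro z hz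
          rw [List.mem_append, List.mem_cons] at hz
          rcases hz with hz | rfl | hz
          · exact hβ2 z (List.mem_append_left _ (List.mem_append_left _ hz))
          · exact hcn
          · exact hβ2 z (List.mem_append_right _ hz)
        · rw [hYapp, hYcons, hy2, ← hβ3, hYapp, hYapp, List.append_assoc]
        · apply Relation.ReflTransGen.head _ hβ4
          refine ⟨l', r', code (some (A, Y x')), x', ?_, rfl, rfl⟩
          refine ⟨⟨(A, x), hp, hc, hx⟩, ?_, Or.inr ⟨hcn, (hy2 _ _).symm⟩⟩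
          intro z hz
          exact hβ2 z (List.mem_append_left _ (List.mem_append_right _ hz))
    obtain ⟨α', h1, h2, h3, h4⟩ := lift [G.S] (hh w hw).2.2
    rw [List.forall₂_cons_right_iff] at h1
    obtain ⟨c, t, hc, ht, rfl⟩ := h1
    rw [List.forall₂_nil_right_iff] at ht
    subst ht
    have hwne : w ≠ [] := by
      intro h5
      have := hlen w hw
      rw [h5] at this
      simp at this
    refine ⟨hwne, hwK, ?_⟩
    rcases Relation.ReflTransGen.cases_head h4 with h5 | ⟨y, hst, hy⟩
    · exfalso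
      have h6 : c ∈ w := by rw [← h5]; exact List.mem_cons_self
      have h7 := hM c (hwK c h6)
      have h8 := (hmemV G.S G.S_mem.1 G.S_mem.2 c hc).1
      omega
    · obtain ⟨l, r, B, x, hP, he, rfl⟩ := hst
      have hl : l = [] := by
        cases l with
        | nil => rfl
        | cons a l =>
          rw [List.cons_append] at he
          have := (List.cons.inj he).2
          simp at this
      subst hl
      rw [List.nil_append] at he
      obtain ⟨h6, h7⟩ := List.cons.inj he
      rw [← h6] at hP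
      rw [← h7] at hy
      rw [List.nil_append, List.append_nil] at hy
      obtain ⟨⟨p, hp, hcp, hxp⟩, hno, hor⟩ := hP
      simp only at hcp hxp hno hor
      have hcne : c ≠ code none := h2 c List.mem_cons_self
      have hYx : Y x = w := by
        rcases hor with ⟨h8, _⟩ | ⟨_, h8⟩
        · exact absurd h8 hcne
        · rw [h8, ← h3, hYcons]
          change yld c = yld c ++ []
          rw [List.append_nil]
      have hpS : p.1 = G.S := by
        by_contra hne
        exact Finset.disjoint_left.mp (hdfl _ (G.P_left p hp).1 _ G.S_mem.1 hne) hcp hc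
      apply Relation.ReflTransGen.head _ hy
      refine ⟨[], [], code none, x, ?_, rfl, by simp⟩
      refine ⟨⟨p, hp, ?_, hxp⟩, hno, Or.inl ⟨rfl, ?_⟩⟩
      · simp only
        rw [hpS]
        exact hS0
      · simp only
        rw [hYx]
        exact hw
  · rintro w ⟨hw1, hw2, hw3⟩
    have hYw : Y w = w := hYlow w (fun x hx => hM x (hw2 x hx))
    have inv : ∀ α, Derives G' α w → (∀ z ∈ α, z ≠ code none) → Y α = w := by
      intro α hα
      induction hα using Relation.ReflTransGen.head_induction_on with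
      | refl => intro _; exact hYw
      | head hst _ ih =>
        obtain ⟨l, r, A, x, hP, rfl, rfl⟩ := hst
        intro hno
        obtain ⟨_, hnox, hor⟩ := hP
        simp only at hnox hor
        have hA : A ≠ code none := hno A (List.mem_append_right _ List.mem_cons_self)
        have hYx : Y x = yld A := by
          rcases hor with ⟨h1, _⟩ | ⟨_, h1⟩
          · exact absurd h1 hA
          · exact h1
        rw [← ih (by
          intro z hz
          rw [List.mem_append, List.mem_append] at hz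
          rcases hz with (hz | hz) | hz
          · exact hno z (List.mem_append_left _ hz)
          · exact hnox z hz
          · exact hno z (List.mem_append_right _ (List.mem_cons_of_mem _ hz)))]
        rw [hYapp, hYapp, hYapp, hYcons, hYx, List.append_assoc]
    rcases Relation.ReflTransGen.cases_head hw3 with h5 | ⟨y, hst, hy⟩
    · exfalso
      have h6 : code none ∈ w := by
        rw [← h5]
        exact List.mem_cons_self
      have h7 := hM _ (hw2 _ h6)
      have h8 := hcodeM none
      omega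
    · obtain ⟨l, r, B, x, hP, he, rfl⟩ := hst
      have hl : l = [] := by
        cases l with
        | nil => rfl
        | cons a l =>
          rw [List.cons_append] at he
          have := (List.cons.inj he).2
          simp at this
      subst hl
      rw [List.nil_append] at he
      obtain ⟨h6, h7⟩ := List.cons.inj he
      rw [← h6] at hP
      rw [← h7] at hy
      rw [List.nil_append, List.append_nil] at hy
      obtain ⟨_, hno, hor⟩ := hP
      simp only at hno hor
      have h8 := inv x hy hno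
      rcases hor with ⟨_, h9⟩ | ⟨h9, _⟩
      · rw [h8] at h9
        exact h9
      · exact absurd rfl h9

/-- identity interpretation -/
theorem lang_mem_fam (G : Grammar) : Lang G ∈ Fam G := by
  refine ⟨G, fun a => {a}, ?_, ⟨?_, ?_, ?_, ?_⟩, rfl⟩
  · intro a _ b _ hab
    rw [Finset.disjoint_singleton_left, mem_singleton]
    exact hab
  · intro A hA hAT B hB
    rw [mem_singleton] at hB
    rw [hB]
    exact ⟨hA, hAT⟩
  · intro a ha
    rw [singleton_subset_iff]
    exact ha
  · intro q hq
    refine ⟨q, hq, mem_singleton_self _, ?_⟩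
    rw [List.forall₂_same]
    intro x _
    exact mem_singleton_self _
  · exact mem_singleton_self _

/-- the digraph of a language -/
def rel (L : Set (List ℕ)) (a b : ℕ) : Prop := [a, b] ∈ L

theorem hom_of_map {L L' : Set (List ℕ)} {h : ℕ → ℕ} (hh : ∀ w ∈ L, w.map h ∈ L') :
    Hom (rel L) (rel L') := ⟨h, fun a b hab => hh [a, b] hab⟩

theorem fam_subset_iff (G₁ G₂ : Grammar) (h1 : ∀ w ∈ Lang G₁, w.length = 2)
    (h2 : ∀ w ∈ Lang G₂, w.length = 2) :
    Fam G₁ ⊆ Fam G₂ ↔ Hom (rel (Lang G₁)) (rel (Lang G₂)) := by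
  constructor
  · intro h
    obtain ⟨_, _, f, hf⟩ := fam_sub G₂ h2 _ (h (lang_mem_fam G₁))
    exact hom_of_map hf
  · rintro ⟨f, hf⟩ L hL
    obtain ⟨hfin, hlen, g, hg⟩ := fam_sub G₁ h1 L hL
    apply sub_fam G₂ L hfin hlen (fun x => f (g x))
    intro w hw
    obtain ⟨a, b, rfl⟩ := List.length_eq_two.mp (hlen w hw)
    exact hf _ _ (hg _ hw)

/-- the form with productions `S → w` for `w ∈ D` -/
def form (T : Finset ℕ) (S : ℕ) (hS : S ∉ T) (D : Set (List ℕ)) (hfin : D.Finite)
    (hT : ∀ w ∈ D, ∀ x ∈ w, x ∈ T) : Grammar where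
  V := insert S T
  T := T
  P := {q | q.1 = S ∧ q.2 ∈ D}
  S := S
  T_sub := subset_insert _ _
  P_fin := by
    apply Set.Finite.subset (hfin.image (fun w => (S, w)))
    rintro ⟨A, w⟩ ⟨h1, h2⟩
    simp only at h1 h2
    exact ⟨w, h2, by rw [h1]⟩
  S_mem := ⟨mem_insert_self _ _, hS⟩
  P_left := by
    rintro ⟨A, w⟩ ⟨h1, _⟩
    simp only at h1
    rw [h1]
    exact ⟨mem_insert_self _ _, hS⟩
  P_right := by
    rintro ⟨A, w⟩ ⟨_, h2⟩ x hx
    exact mem_insert_of_mem (hT w h2 x hx)

theorem form_lang (T : Finset ℕ) (S : ℕ) (hS : S ∉ T) (D : Set (List ℕ)) (hfin : D.Finite)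
    (hT : ∀ w ∈ D, ∀ x ∈ w, x ∈ T) (hlen : ∀ w ∈ D, w.length = 2) :
    Lang (form T S hS D hfin hT) = D := by
  apply Set.Subset.antisymm
  · rintro w ⟨_, h2, h3⟩
    have key : ∀ v, Derives (form T S hS D hfin hT) [S] v → v = [S] ∨ v ∈ D := by
      intro v hv
      induction hv with
      | refl => exact Or.inl rfl
      | tail _ hst ih =>
        obtain ⟨l, r, A, x, hP, rfl, rfl⟩ := hst
        obtain ⟨hA, hx⟩ := hP
        simp only at hA hx
        rcases ih with ih | ih
        · right
          have hl : l = [] := by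
            cases l with
            | nil => rfl
            | cons a l =>
              rw [List.cons_append] at ih
              have := (List.cons.inj ih).2
              simp at this
          subst hl
          rw [List.nil_append] at ih
          have hr := (List.cons.inj ih).2
          rw [hr, List.nil_append, List.append_nil]
          exact hx
        · exfalso
          apply hS
          rw [← hA]
          exact hT _ ih A (List.mem_append_right _ List.mem_cons_self)
    rcases key w h3 with h4 | h4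
    · exfalso
      apply hS
      exact h2 S (by rw [h4]; exact List.mem_cons_self)
    · exact h4
  · intro w hw
    refine ⟨?_, hT w hw, ?_⟩
    · intro h
      have := hlen w hw
      rw [h] at this
      simp at this
    · apply Relation.ReflTransGen.single
      exact ⟨[], [], S, w, ⟨rfl, hw⟩, rfl, by simp⟩

/-- the form `F_1`: `S → ab, S → ba` (with `S = 0, a = 1, b = 2`) -/
def F₁ : Grammar := form {1, 2} 0 (by decide) {[1, 2], [2, 1]} (by simp) (by
  intro w hw x hx
  simp only [Set.mem_insert_iff, Set.mem_singleton_iff] at hw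
  rcases hw with rfl | rfl <;> simp at hx <;> simp <;> tauto)

/-- the form `F_2`: `S → aa` (with `S = 0, a = 1`) -/
def F₂ : Grammar := form {1} 0 (by decide) {[1, 1]} (by simp) (by
  intro w hw x hx
  simp only [Set.mem_singleton_iff] at hw
  subst hw
  simpa using hx)

theorem lang_F₁ : Lang F₁ = {[1, 2], [2, 1]} := by
  apply form_lang
  intro w hw
  simp only [Set.mem_insert_iff, Set.mem_singleton_iff] at hw
  rcases hw with rfl | rfl <;> rfl

theorem lang_F₂ : Lang F₂ = {[1, 1]} := by
  apply form_lang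
  intro w hw
  simp only [Set.mem_singleton_iff] at hw
  rw [hw]
  rfl

theorem len_F₁ : ∀ w ∈ Lang F₁, w.length = 2 := by
  intro w hw
  rw [lang_F₁] at hw
  simp only [Set.mem_insert_iff, Set.mem_singleton_iff] at hw
  rcases hw with rfl | rfl <;> rfl

theorem len_F₂ : ∀ w ∈ Lang F₂, w.length = 2 := by
  intro w hw
  rw [lang_F₂] at hw
  simp only [Set.mem_singleton_iff] at hw
  rw [hw]
  rfl

/-- The answer to Q1 is yes: the finite grammar forms `F_1` (`S → ab, S → ba`) and `F_2`
(`S → aa`) have a dense pair of families. -/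
theorem result :
    FiniteForm F₁ ∧ FiniteForm F₂ ∧ Fam F₁ ⊂ Fam F₂ ∧ Dense F₁ F₂ := by
  classical
  refine ⟨?_, ?_, ?_, ?_⟩
  · unfold FiniteForm
    rw [lang_F₁]
    simp
  · unfold FiniteForm
    rw [lang_F₂]
    simp
  · rw [Set.ssubset_iff_subset_ne]
    have hsub : Fam F₁ ⊆ Fam F₂ := by
      rw [fam_subset_iff _ _ len_F₁ len_F₂]
      refine ⟨fun _ => 1, fun a b _ => ?_⟩
      unfold rel
      rw [lang_F₂]
      rfl
    refine ⟨hsub, fun heq => ?_⟩
    have h1 : Fam F₂ ⊆ Fam F₁ := by rw [heq]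
    rw [fam_subset_iff _ _ len_F₂ len_F₁] at h1
    obtain ⟨h, hh⟩ := h1
    have h2 := hh 1 1 (by unfold rel; rw [lang_F₂]; rfl)
    unfold rel at h2
    rw [lang_F₁] at h2
    simp only [Set.mem_insert_iff, Set.mem_singleton_iff, List.cons.injEq, and_true] at h2
    omega
  · intro G₁ G₂ hF h12 h2F
    have hlen2 : ∀ w ∈ Lang G₂, w.length = 2 :=
      (fam_sub F₂ len_F₂ _ (h2F (lang_mem_fam G₂))).2.1
    have hlen1 : ∀ w ∈ Lang G₁, w.length = 2 :=
      (fam_sub G₂ hlen2 _ (h12.1 (lang_mem_fam G₁))).2.1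
    have hF' := (fam_subset_iff _ _ len_F₁ hlen1).mp hF
    obtain ⟨h, hh⟩ := hF'
    have hpq : rel (Lang G₁) (h 1) (h 2) := hh 1 2 (by unfold rel; rw [lang_F₁]; simp)
    have hqp : rel (Lang G₁) (h 2) (h 1) := hh 2 1 (by unfold rel; rw [lang_F₁]; simp)
    have hE12 := (fam_subset_iff _ _ hlen1 hlen2).mp h12.1
    have hE21 : ¬ Hom (rel (Lang G₂)) (rel (Lang G₁)) := fun h3 =>
      h12.2 ((fam_subset_iff _ _ hlen2 hlen1).mpr h3)
    have hvert : ∀ G : Grammar, ∀ a b, rel (Lang G) a b → a ∈ G.T ∧ b ∈ G.T := by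
      intro G a b hab
      exact ⟨hab.2.1 a (by simp), hab.2.1 b (by simp)⟩
    obtain ⟨E₃, V₃, hV₃, c1, c2, c3, c4⟩ := density _ _ G₁.T G₂.T (hvert G₁) (hvert G₂)
      (h 1) (h 2) hpq hqp hE12 hE21
    let D : Set (List ℕ) := {w | ∃ a b, w = [a, b] ∧ E₃ a b}
    have hDlen : ∀ w ∈ D, w.length = 2 := by
      rintro w ⟨a, b, rfl, _⟩
      rfl
    have hDT : ∀ w ∈ D, ∀ x ∈ w, x ∈ V₃ := by
      rintro w ⟨a, b, rfl, hab⟩ x hx
      have h3 := hV₃ a b hab
      simp only [List.mem_cons, List.not_mem_nil, or_false] at hx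
      rcases hx with rfl | rfl
      · exact h3.1
      · exact h3.2
    have hDfin : D.Finite := (fin_two V₃).subset (fun w hw => ⟨hDlen w hw, hDT w hw⟩)
    have hS : V₃.sup id + 1 ∉ V₃ := by
      intro h3
      have h4 : V₃.sup id + 1 ≤ V₃.sup id := Finset.le_sup (f := id) h3
      omega
    let G₃ : Grammar := form V₃ (V₃.sup id + 1) hS D hDfin hDT
    have hL3 : Lang G₃ = D := form_lang _ _ _ _ _ _ hDlen
    have hlen3 : ∀ w ∈ Lang G₃, w.length = 2 := by rw [hL3]; exact hDlen
    have hrel : ∀ a b, rel (Lang G₃) a b ↔ E₃ a b := by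
      intro a b
      unfold rel
      rw [hL3]
      constructor
      · rintro ⟨a', b', he, hab⟩
        simp only [List.cons.injEq, and_true] at he
        rw [he.1, he.2]
        exact hab
      · intro hab
        exact ⟨a, b, rfl, hab⟩
    have hrel' : rel (Lang G₃) = E₃ := by
      funext a b
      exact propext (hrel a b)
    refine ⟨G₃, ⟨?_, ?_⟩, ⟨?_, ?_⟩⟩
    · rw [fam_subset_iff _ _ hlen1 hlen3, hrel']
      exact c1
    · intro h3
      have h4 := (fam_subset_iff _ _ hlen3 hlen1).mp h3
      rw [hrel'] at h4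
      exact c2 h4
    · rw [fam_subset_iff _ _ hlen3 hlen2, hrel']
      exact c3
    · intro h3
      have h4 := (fam_subset_iff _ _ hlen2 hlen3).mp h3
      rw [hrel'] at h4
      exact c4 h4

end Pool.Agent.Results.MP_71ec98_lc.DensePair
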